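import Mathlib

open Equiv OnePoint

namespace Pool.Agent.Results.MP_6fd06d_co.Three

variable {Ω : Type}

/-- derangements of the permutation group `G`. -/
def Der (G : Subgroup (Perm Ω)) : Set G := {g | ∀ x, g.1 x ≠ x}

/-- Cayley graph: `g ∼ h` iff `h g⁻¹ ∈ S` (for inverse-closed `S` avoiding `1`). -/
def Cay {G : Subgroup (Perm Ω)} (S : Set G) : SimpleGraph G :=
  SimpleGraph.fromRel fun g h => h * g⁻¹ ∈ S

/-- derangements sending `i` to `j`. -/
def Dto (G : Subgroup (Perm Ω)) (i j : Ω) : Set G := {g | g ∈ Der G ∧ g.1 i = j}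

def StrictRobust (G : Subgroup (Perm Ω)) : Prop :=
  ∀ D : Set G, D ⊆ Der G → (∀ g ∈ D, g⁻¹ ∈ D) →
    (¬ ∃ i j, i ≠ j ∧ Dto G i j ∪ Dto G j i ⊆ D) →
    (Cay (Der G \ D)).indepNum = Nat.card G / Nat.card Ω

/-- `PGL(2, K)` acting on the projective line `K ∪ {∞}` by Moebius maps. -/
def PGL (K : Type) [Field K] [DecidableEq K] : Subgroup (Perm (OnePoint K)) :=
  (MulAction.toPermHom (GL (Fin 2) K) (OnePoint K)).range

instance dec : DecidableEq (OnePoint (ZMod 3)) := inferInstanceAs (DecidableEq (Option (ZMod 3)))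

lemma mem (M : Matrix (Fin 2) (Fin 2) (ZMod 3)) (h : M * M = 1) (σ : Perm (OnePoint (ZMod 3)))
    (h1 : σ ∞ = if M 1 0 = 0 then ∞ else ((M 0 0 * M 1 0 : ZMod 3) : OnePoint (ZMod 3)))
    (h2 : ∀ k : ZMod 3, σ k = if M 1 0 * k + M 1 1 = 0 then ∞ else
      (((M 0 0 * k + M 0 1) * (M 1 0 * k + M 1 1) : ZMod 3) : OnePoint (ZMod 3))) :
    σ ∈ PGL (ZMod 3) := by
  have hi : ∀ x : ZMod 3, x⁻¹ = x := by
    intro x
    by_cases hx : x = 0
    · simp [hx]
    · exact inv_eq_of_mul_eq_one_right (by revert x; decide)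
  refine ⟨⟨M, M, h, h⟩, ?_⟩
  ext x
  cases x with
  | infty => simp [smul_infty_eq_ite, h1, div_eq_mul_inv, hi]
  | coe k => simp [smul_some_eq_ite, h2, div_eq_mul_inv, hi]

def a : PGL (ZMod 3) := ⟨swap ∞ (0 : ZMod 3), mem !![0, 1; 1, 0] (by decide) _ (by decide) (by decide)⟩
def b : PGL (ZMod 3) :=
  ⟨swap (0 : ZMod 3) (1 : ZMod 3), mem !![2, 1; 0, 1] (by decide) _ (by decide) (by decide)⟩
def c : PGL (ZMod 3) :=
  ⟨swap (1 : ZMod 3) (2 : ZMod 3), mem !![2, 0; 0, 1] (by decide) _ (by decide) (by decide)⟩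

def X : Finset (PGL (ZMod 3)) := {1, a * b, b * a, b * c, c * b, a * c, a * b * c * b}

theorem result : ¬ StrictRobust (PGL (ZMod 3)) := by
  intro h
  have h1 := h {g | g ∈ Der _ ∧ g * g = 1} (fun g hg => hg.1) ?_ ?_
  · have hc : Nat.card (PGL (ZMod 3)) ≤ 24 := by
      have := Nat.card_le_card_of_injective _ (PGL (ZMod 3)).subtype_injective
      rw [Nat.card_perm] at this
      have e : Nat.card (OnePoint (ZMod 3)) = 4 := by rw [Nat.card_eq_fintype_card]; rfl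
      rw [e] at this
      exact this
    have e : Nat.card (OnePoint (ZMod 3)) = 4 := by rw [Nat.card_eq_fintype_card]; rfl
    have hX : X.card = 7 := by decide +kernel
    have key : ∀ g ∈ X, ∀ k ∈ X, (∀ x, (k * g⁻¹).1 x ≠ x) → (k * g⁻¹) * (k * g⁻¹) = 1 := by
      decide +kernel
    have hI : (Cay (Der _ \ {g | g ∈ Der (PGL (ZMod 3)) ∧ g * g = 1})).IsIndepSet X := by
      intro g hg k hk _ hadj
      rcases ((SimpleGraph.fromRel_adj _ _ _).1 hadj).2 with h2 | h2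
      · exact h2.2 ⟨h2.1, key g hg k hk h2.1⟩
      · exact h2.2 ⟨h2.1, key k hk g hg h2.1⟩
    have := hI.card_le_indepNum
    rw [h1, hX, e] at this
    omega
  · rintro g ⟨h1, h2⟩
    rw [inv_eq_of_mul_eq_one_right h2]
    exact ⟨h1, h2⟩
  · rintro ⟨i, j, hij, hs⟩
    have key : ∀ i j : OnePoint (ZMod 3), i ≠ j → ∃ g ∈ [a * b * c, c * b * a, b * a * c,
        a * c * b], (∀ x, g.1 x ≠ x) ∧ (g.1 i = j ∨ g.1 j = i) ∧ g * g ≠ 1 := by
      decide +kernel
    obtain ⟨g, -, g1, g2, g3⟩ := key i j hij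
    rcases g2 with g2 | g2
    · exact g3 (hs (Or.inl ⟨g1, g2⟩)).2
    · exact g3 (hs (Or.inr ⟨g1, g2⟩)).2

end Pool.Agent.Results.MP_6fd06d_co.Three
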